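import Mathlib

/-!
MP_34a732_nt, Q1 fails for `p = 31` and for `p = 59` (wrong sign).
-/

set_option autoImplicit false

namespace Pool.Agent.Results.MP_34a732_nt.FailsAt31

/-- `binom(a,k) = a (a-1) ... (a-k+1) / k!` -/
def binom (a : ℚ) (k : ℕ) : ℚ := (∏ i ∈ Finset.range k, (a - i)) / k.factorial

def S1 (p : ℕ) : ℚ :=
  ∑ k ∈ Finset.range p, binom (-1 / 3) k * binom (-1 / 6) k * (27 / 16) ^ k

def S2 (p : ℕ) : ℚ :=
  ∑ k ∈ Finset.range p, binom (-2 / 3) k * binom (-5 / 6) k * (27 / 16) ^ k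

/-- Legendre symbol of a `p`-integral rational (`(u/v | p) = (u v | p)`) -/
def leg (r : ℚ) (p : ℕ) : ℤ := jacobiSym (r.num * r.den) p

/-- `(-11/16)^((1-(p/3))/2)` -/
def mid (p : ℕ) : ℚ := if p % 3 = 1 then 1 else -11 / 16

/-- the right-hand side -/
def R (p : ℕ) (x y : ℤ) : ℚ :=
  if p % 3 = 1 then -(leg (-11 + x / y) p) * jacobiSym x 11 * (x - p / x)
  else -(1 / 4) * leg (-11 + jacobiSym x 11 * x / y) p * (11 * y - p / y)

/-- `a ≡ b (mod p^m)`: `(a-b)/p^m` is `p`-integral -/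
def Cong (p m : ℕ) (a b : ℚ) : Prop := ¬ p ∣ ((a - b) / (p : ℚ) ^ m).den

/-- the first display of Q1, for all primes -/
def Q1 : Prop := ∀ p : ℕ, p.Prime → 11 < p → jacobiSym p 11 = 1 →
  ∀ x y : ℤ, 4 * (p : ℤ) = x ^ 2 + 11 * y ^ 2 →
    Cong p 2 (S1 p) (mid p * S2 p) ∧ Cong p 2 (S1 p) (R p x y)

theorem cases31 {x y : ℤ} (h : (4 * 31 : ℤ) = x ^ 2 + 11 * y ^ 2) :
    (x = 5 ∨ x = -5) ∧ (y = 3 ∨ y = -3) := by
  have h3 : y ≤ 3 := by nlinarith [sq_nonneg x]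
  have h4 : -3 ≤ y := by nlinarith [sq_nonneg x]
  have h5 : x ≤ 11 := by nlinarith [sq_nonneg y]
  have h6 : -11 ≤ x := by nlinarith [sq_nonneg y]
  interval_cases y <;> interval_cases x <;> omega

theorem cases59 {x y : ℤ} (h : (4 * 59 : ℤ) = x ^ 2 + 11 * y ^ 2) :
    (x = 15 ∨ x = -15) ∧ (y = 1 ∨ y = -1) := by
  have h3 : y ≤ 4 := by nlinarith [sq_nonneg x]
  have h4 : -4 ≤ y := by nlinarith [sq_nonneg x]
  have h5 : x ≤ 15 := by nlinarith [sq_nonneg y]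
  have h6 : -15 ≤ x := by nlinarith [sq_nonneg y]
  interval_cases y <;> interval_cases x <;> omega

/-- For `p = 31` (`p ≡ 1 (mod 3)`) and for `p = 59` (`p ≡ 2 (mod 3)`) the second congruence fails
for all `x, y` with `4p = x² + 11 y²`, and it becomes true with the opposite sign; hence the
statement of Q1 is false. -/
theorem result :
    (∀ x y : ℤ, (4 * 31 : ℤ) = x ^ 2 + 11 * y ^ 2 →
      ¬ Cong 31 2 (S1 31) (R 31 x y) ∧ Cong 31 2 (S1 31) (-R 31 x y)) ∧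
    (∀ x y : ℤ, (4 * 59 : ℤ) = x ^ 2 + 11 * y ^ 2 →
      ¬ Cong 59 2 (S1 59) (R 59 x y) ∧ Cong 59 2 (S1 59) (-R 59 x y)) ∧ ¬ Q1 := by
  have key31 : ∀ x y : ℤ, (4 * 31 : ℤ) = x ^ 2 + 11 * y ^ 2 →
      ¬ Cong 31 2 (S1 31) (R 31 x y) ∧ Cong 31 2 (S1 31) (-R 31 x y) := by
    intro x y h
    obtain ⟨hx, hy⟩ := cases31 h
    have j1 : jacobiSym 5 11 = 1 := by norm_num
    have j2 : jacobiSym (-5) 11 = -1 := by norm_num
    have e1 : leg (-11 + (((5 : ℤ)) : ℚ) / (((3 : ℤ)) : ℚ)) 31 = 1 := by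
      unfold leg; norm_num
    have e2 : leg (-11 + (((5 : ℤ)) : ℚ) / (((-3 : ℤ)) : ℚ)) 31 = 1 := by
      unfold leg; norm_num
    have e3 : leg (-11 + (((-5 : ℤ)) : ℚ) / (((3 : ℤ)) : ℚ)) 31 = 1 := by
      unfold leg; norm_num
    have e4 : leg (-11 + (((-5 : ℤ)) : ℚ) / (((-3 : ℤ)) : ℚ)) 31 = 1 := by
      unfold leg; norm_num
    unfold Cong R
    rcases hx with rfl | rfl <;> rcases hy with rfl | rfl
    · rw [e1, j1]; decide +kernel
    · rw [e2, j1]; decide +kernel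
    · rw [e3, j2]; decide +kernel
    · rw [e4, j2]; decide +kernel
  have key59 : ∀ x y : ℤ, (4 * 59 : ℤ) = x ^ 2 + 11 * y ^ 2 →
      ¬ Cong 59 2 (S1 59) (R 59 x y) ∧ Cong 59 2 (S1 59) (-R 59 x y) := by
    intro x y h
    obtain ⟨hx, hy⟩ := cases59 h
    have j1 : jacobiSym 15 11 = 1 := by norm_num
    have j2 : jacobiSym (-15) 11 = -1 := by norm_num
    have e1 : leg (-11 + ((1 : ℤ) : ℚ) * (((15 : ℤ)) : ℚ) / (((1 : ℤ)) : ℚ)) 59 = 1 := by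
      unfold leg; norm_num
    have e2 : leg (-11 + ((1 : ℤ) : ℚ) * (((15 : ℤ)) : ℚ) / (((-1 : ℤ)) : ℚ)) 59 = -1 := by
      unfold leg; norm_num
    have e3 : leg (-11 + ((-1 : ℤ) : ℚ) * (((-15 : ℤ)) : ℚ) / (((1 : ℤ)) : ℚ)) 59 = 1 := by
      unfold leg; norm_num
    have e4 : leg (-11 + ((-1 : ℤ) : ℚ) * (((-15 : ℤ)) : ℚ) / (((-1 : ℤ)) : ℚ)) 59 = -1 := by
      unfold leg; norm_num
    unfold Cong R
    rcases hx with rfl | rfl <;> rcases hy with rfl | rfl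
    · rw [j1, e1]; decide +kernel
    · rw [j1, e2]; decide +kernel
    · rw [j2, e3]; decide +kernel
    · rw [j2, e4]; decide +kernel
  refine ⟨key31, key59, fun h => ?_⟩
  exact (key31 5 3 (by norm_num)).1
    (h 31 (by norm_num) (by norm_num) (by norm_num) 5 3 (by norm_num)).2

end Pool.Agent.Results.MP_34a732_nt.FailsAt31
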